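import Mathlib
import Pool.Agent.Helper623.MM.Main

set_option autoImplicit false

open MvPolynomial MeasureTheory Finset

namespace Pool.Agent.Results.MP_47888e_al.LowDegreeMathieu

/-- `f` is *top-linear*: for some `e ≥ 1` bounding all exponents of single variables and some `s`
which is the largest number of variables having exponent exactly `e` in one monomial of `f`,
every monomial of `f` in which exactly `s` variables have exponent `e` has total degree at most `1`
in the remaining variables. -/
def TopLinear {n : ℕ} (f : MvPolynomial (Fin n) ℂ) : Prop :=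
  ∃ e s : ℕ, 0 < e ∧
    (∀ α ∈ f.support, ∀ i, α i ≤ e) ∧
    (∀ α ∈ f.support, (univ.filter (fun i => α i = e)).card ≤ s) ∧
    (∃ α ∈ f.support, (univ.filter (fun i => α i = e)).card = s) ∧
    (∀ α ∈ f.support, (univ.filter (fun i => α i = e)).card = s →
      ∑ i ∈ univ.filter (fun i => α i ≠ e), α i ≤ 1)

theorem multi_affine {n : ℕ} (f : MvPolynomial (Fin n) ℂ) (hf : f ≠ 0)
    (h : ∀ α ∈ f.support, ∀ i, α i ≤ 1) : TopLinear f := by
  classical
  have hne : f.support.Nonempty := support_nonempty.2 hf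
  obtain ⟨α, hα, hmax⟩ := Finset.exists_max_image f.support
    (fun α => (univ.filter (fun i => α i = 1)).card) hne
  refine ⟨1, (univ.filter (fun i => α i = 1)).card, one_pos, h, hmax, ⟨α, hα, rfl⟩, ?_⟩
  intro β hβ _
  rw [Finset.sum_eq_zero]
  · exact Nat.zero_le _
  · intro i hi
    rw [mem_filter] at hi
    have := h β hβ i
    omega

theorem exists_es {n : ℕ} (f : MvPolynomial (Fin n) ℂ)
    (h : ¬ ∀ α ∈ f.support, ∀ i, α i ≤ 1) :
    ∃ e s : ℕ, 2 ≤ e ∧ 1 ≤ s ∧
    (∀ α ∈ f.support, ∀ i, α i ≤ e) ∧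
    (∀ α ∈ f.support, (univ.filter (fun i => α i = e)).card ≤ s) ∧
    (∃ α ∈ f.support, (univ.filter (fun i => α i = e)).card = s) := by
  classical
  push Not at h
  obtain ⟨α0, hα0, i0, hi0⟩ := h
  obtain ⟨q, hq, hmax⟩ := Finset.exists_max_image (f.support ×ˢ (univ : Finset (Fin n)))
    (fun q => q.1 q.2) ⟨(α0, i0), mem_product.2 ⟨hα0, mem_univ _⟩⟩
  have hq1 := (mem_product.1 hq).1
  set e := q.1 q.2 with he
  obtain ⟨α, hα, hmax2⟩ := Finset.exists_max_image f.support
    (fun α => (univ.filter (fun i => α i = e)).card) ⟨α0, hα0⟩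
  refine ⟨e, (univ.filter (fun i => α i = e)).card, ?_, ?_, ?_, hmax2, ⟨α, hα, rfl⟩⟩
  · have := hmax (α0, i0) (mem_product.2 ⟨hα0, mem_univ _⟩)
    simp only at this
    omega
  · have h1 := hmax2 q.1 hq1
    have h2 : 0 < (univ.filter (fun i => q.1 i = e)).card :=
      Finset.card_pos.2 ⟨q.2, by rw [mem_filter]; exact ⟨mem_univ _, rfl⟩⟩
    omega
  · intro β hβ i
    exact hmax (β, i) (mem_product.2 ⟨hβ, mem_univ _⟩)

theorem sum_split {n : ℕ} (α : Fin n →₀ ℕ) (e : ℕ) :
    ∑ i, α i = e * (univ.filter (fun i => α i = e)).card + ∑ i ∈ univ.filter (fun i => α i ≠ e), α i := by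
  classical
  rw [← Finset.sum_filter_add_sum_filter_not univ (fun i => α i = e) (fun i => α i)]
  congr 1
  rw [Finset.sum_congr rfl (fun i hi => (mem_filter.1 hi).2), sum_const, smul_eq_mul, mul_comm]

theorem degree_sum_le {n : ℕ} (f : MvPolynomial (Fin n) ℂ) (d : ℕ) (hd : f.totalDegree ≤ d)
    (α : Fin n →₀ ℕ) (hα : α ∈ f.support) : ∑ i, α i ≤ d := by
  classical
  have h1 := le_totalDegree hα
  have h2 : (α.sum fun _ e => e) = ∑ i, α i := Finsupp.sum_fintype _ _ (fun _ => rfl)
  omega

theorem topLinear_of {n : ℕ} (f : MvPolynomial (Fin n) ℂ) (hf : f ≠ 0)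
    (h : f.totalDegree ≤ 3 ∨ (∀ i, f.degreeOf i ≤ 1) ∨
      (n = 2 ∧ (f.totalDegree ≤ 4 ∨ ∀ i, f.degreeOf i ≤ 2)) ∨
      (∃ i, ∀ α ∈ f.support, ∑ j ∈ univ.erase i, α j ≤ 1) ∨
      (∃ i, f.coeff (Finsupp.single i f.totalDegree) ≠ 0) ∨ TopLinear f) : TopLinear f := by
  classical
  by_cases hma : ∀ α ∈ f.support, ∀ i, α i ≤ 1
  · exact multi_affine f hf hma
  obtain ⟨e, s, he, hs, hdeg, hcount, hex⟩ := exists_es f hma
  rcases h with h | h | ⟨hn, h⟩ | ⟨i, hi⟩ | ⟨i, hi⟩ | h
  · refine ⟨e, s, by omega, hdeg, hcount, hex, ?_⟩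
    intro α hα hαs
    have h1 := degree_sum_le f 3 h α hα
    rw [sum_split α e, hαs] at h1
    have : 2 * 1 ≤ e * s := Nat.mul_le_mul he hs
    omega
  · exfalso
    apply hma
    intro α hα i
    have := (degreeOf_le_iff.1 (h i)) α hα
    exact this
  · subst hn
    refine ⟨e, s, by omega, hdeg, hcount, hex, ?_⟩
    intro α hα hαs
    by_cases hs2 : 2 ≤ s
    · have h1 : (univ.filter (fun i => α i = e)) = univ := by
        apply Finset.eq_univ_of_card
        have h2 := Finset.card_le_univ (univ.filter (fun i => α i = e))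
        simp at h2 ⊢
        omega
      rw [Finset.sum_eq_zero]
      · exact Nat.zero_le _
      · intro i hi
        rw [mem_filter] at hi
        have : i ∈ univ.filter (fun i => α i = e) := by rw [h1]; exact mem_univ _
        exact absurd (mem_filter.1 this).2 hi.2
    · have hs1 : s = 1 := by omega
      subst hs1
      by_cases he2 : e = 2
      · subst he2
        have hc : (univ.filter (fun i => α i ≠ 2)).card ≤ 1 := by
          have h3 := Finset.card_filter_add_card_filter_not (s := (univ : Finset (Fin 2))) (fun i => α i = 2)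
          simp only [Finset.card_univ, Fintype.card_fin] at h3
          have h4 : (univ.filter (fun i => α i ≠ 2)).card = (univ.filter (fun i => ¬ α i = 2)).card := rfl
          omega
        calc ∑ i ∈ univ.filter (fun i => α i ≠ 2), α i
            ≤ ∑ i ∈ univ.filter (fun i => α i ≠ 2), 1 := by
              refine Finset.sum_le_sum (fun i hi => ?_)
              have h5 := hdeg α hα i
              have h6 := (mem_filter.1 hi).2
              omega
          _ ≤ 1 := by rw [sum_const, smul_eq_mul, mul_one]; exact hc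
      · have he3 : 3 ≤ e := by omega
        rcases h with h | h
        · have h1 := degree_sum_le f 4 h α hα
          rw [sum_split α e, hαs] at h1
          omega
        · exfalso
          obtain ⟨β, hβ, hβs⟩ := hex
          have : 0 < (univ.filter (fun i => β i = e)).card := by omega
          obtain ⟨j, hj⟩ := Finset.card_pos.1 this
          have h1 := (degreeOf_le_iff.1 (h j)) β hβ
          have h2 := (mem_filter.1 hj).2
          omega
  · -- affine in the variables other than `x_i`
    refine ⟨e, s, by omega, hdeg, hcount, hex, ?_⟩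
    intro α hα hαs
    have hpos : 0 < (univ.filter (fun j => α j = e)).card := by omega
    obtain ⟨j, hj⟩ := Finset.card_pos.1 hpos
    have hj2 := (mem_filter.1 hj).2
    have h1 := hi α hα
    have hji : j = i := by
      by_contra hne
      have h2 : α j ≤ ∑ k ∈ univ.erase i, α k :=
        Finset.single_le_sum (f := fun k => α k) (fun _ _ => Nat.zero_le _)
          (mem_erase.2 ⟨hne, mem_univ _⟩)
      omega
    refine le_trans (Finset.sum_le_sum_of_subset ?_) h1
    intro k hk
    rw [mem_filter] at hk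
    rw [mem_erase]
    refine ⟨?_, mem_univ _⟩
    rintro rfl
    rw [hji] at hj2
    exact hk.2 hj2
  · -- pure power
    set d := f.totalDegree with hd
    have hmem : Finsupp.single i d ∈ f.support := mem_support_iff.2 hi
    have hsum : ∀ α ∈ f.support, ∑ j, α j ≤ d := fun α hα => degree_sum_le f d le_rfl α hα
    have hle : ∀ α ∈ f.support, ∀ j, α j ≤ d := by
      intro α hα j
      exact le_trans (Finset.single_le_sum (f := fun j => α j) (fun _ _ => Nat.zero_le _) (mem_univ j))
        (hsum α hα)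
    have hd2 : 2 ≤ d := by
      obtain ⟨β, hβ, hβs⟩ := hex
      have : 0 < (univ.filter (fun i => β i = e)).card := by omega
      obtain ⟨j, hj⟩ := Finset.card_pos.1 this
      have h2 := (mem_filter.1 hj).2
      have := hle β hβ j
      omega
    have hc1 : ∀ α ∈ f.support, (univ.filter (fun j => α j = d)).card ≤ 1 := by
      intro α hα
      have h1 := hsum α hα
      rw [sum_split α d] at h1
      by_contra hcon
      have h2 : d * 2 ≤ d * (univ.filter (fun j => α j = d)).card := Nat.mul_le_mul_left _ (by omega)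
      omega
    refine ⟨d, 1, by omega, hle, hc1, ⟨_, hmem, ?_⟩, ?_⟩
    · apply le_antisymm (hc1 _ hmem)
      exact Finset.card_pos.2 ⟨i, by rw [mem_filter]; exact ⟨mem_univ _, Finsupp.single_eq_same⟩⟩
    · intro α hα hαs
      have h1 := hsum α hα
      rw [sum_split α d, hαs] at h1
      omega
  · exact h

/-- The classes of polynomials `h` in `n` variables for which the Mathieu property is proved. -/
def Covered {n : ℕ} (h : MvPolynomial (Fin n) ℂ) : Prop :=
  h.totalDegree ≤ 3 ∨ (∀ i, h.degreeOf i ≤ 1) ∨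
    (n = 2 ∧ (h.totalDegree ≤ 4 ∨ ∀ i, h.degreeOf i ≤ 2)) ∨
    (∃ i, ∀ α ∈ h.support, ∑ j ∈ univ.erase i, α j ≤ 1) ∨
    (∃ i, h.coeff (Finsupp.single i h.totalDegree) ≠ 0) ∨ TopLinear h

/-- The Mathieu implication for integration over the unit cube `[0,1]^n` holds for every `a = h ^ k`
with `h` in one of the covered classes, `k ≥ 1`, and for every polynomial `b`; moreover the
hypothesis forces `h = 0`. -/
theorem result :
    ∀ n : ℕ, ∀ h : MvPolynomial (Fin n) ℂ, Covered h → ∀ k : ℕ, 0 < k →
      (∃ N : ℕ, ∀ m : ℕ, N ≤ m →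
        ∫ x in Set.Icc (0 : Fin n → ℝ) 1,
          MvPolynomial.eval (fun i => ((x i : ℝ) : ℂ)) ((h ^ k) ^ m) = 0) →
      h = 0 ∧ ∀ b : MvPolynomial (Fin n) ℂ, ∃ N : ℕ, ∀ m : ℕ, N ≤ m →
        ∫ x in Set.Icc (0 : Fin n → ℝ) 1,
          MvPolynomial.eval (fun i => ((x i : ℝ) : ℂ)) ((h ^ k) ^ m * b) = 0 := by
  intro n h hcov k hk hN
  have h0 : h = 0 := by
    by_contra hf
    obtain ⟨e, s, he, hdeg, hcount, hex, hlin⟩ := topLinear_of h hf hcov
    obtain ⟨N, hN⟩ := hN
    refine Pool.Agent.Helper623.MM.general h e s k N he hk hdeg hcount hex hlin ?_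
    intro m hm
    have h1 := hN m hm
    rw [← pow_mul] at h1
    simpa [map_pow] using h1
  refine ⟨h0, fun b => ⟨1, fun m hm => ?_⟩⟩
  have h2 : (h ^ k) ^ m * b = 0 := by
    rw [h0, zero_pow hk.ne', zero_pow (by omega), zero_mul]
  simp [h2]

end Pool.Agent.Results.MP_47888e_al.LowDegreeMathieu
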